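import Pool.Agent.Strip051.LB.ChB03V1_pp_022.Defs

/-! # LINE tight chart ChB03V1_pp_022: boxes, part 5 -/

namespace Pool.Agent.Strip051.LB.ChB03V1_pp_022

open Pool.Agent.Strip051.Box Pool.Agent.Strip051.Box2

set_option maxRecDepth 100000

theorem c38 : chk f 60 (L2 (L1 (L2 (L1 (R2 (R1 (R2 (R1 (L2 (L1 (R2 (R2 b0)))))))))))) = true := by decide +kernel

theorem c39 : chk f 60 (R2 (L1 (L2 (L1 (R2 (R1 (R2 (R1 (L2 (L1 (R2 (R2 b0)))))))))))) = true := by decide +kernel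

theorem c40 : chk f 60 (L2 (L2 (R1 (L2 (L1 (R2 (R1 (R2 (R1 (L2 (L1 (R2 (R2 b0))))))))))))) = true := by decide +kernel

theorem c41 : chk f 60 (R2 (L2 (R1 (L2 (L1 (R2 (R1 (R2 (R1 (L2 (L1 (R2 (R2 b0))))))))))))) = true := by decide +kernel

theorem c42 : chk f 60 (R2 (R1 (L2 (L1 (R2 (R1 (R2 (R1 (L2 (L1 (R2 (R2 b0)))))))))))) = true := by decide +kernel

theorem c43 : chk f 60 (R2 (L1 (R2 (R1 (R2 (R1 (L2 (L1 (R2 (R2 b0)))))))))) = true := by decide +kernel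

theorem c44 : chk f 60 (R1 (R2 (R1 (R2 (R1 (L2 (L1 (R2 (R2 b0))))))))) = true := by decide +kernel

theorem c45 : chk f 60 (L1 (R2 (L1 (R2 (R2 b0))))) = true := by decide +kernel

end Pool.Agent.Strip051.LB.ChB03V1_pp_022
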