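import Pool.Agent.Strip051.LB.ChB03V1_pp_022.C1
import Pool.Agent.Strip051.LB.ChB03V1_pp_022.C2
import Pool.Agent.Strip051.LB.ChB03V1_pp_022.C3
import Pool.Agent.Strip051.LB.ChB03V1_pp_022.C4
import Pool.Agent.Strip051.LB.ChB03V1_pp_022.C5
import Pool.Agent.Strip051.LB.ChB03V1_pp_022.C6
import Pool.Agent.Strip051.LB.ChB03V1_pp_022.C7
import Pool.Agent.Strip051.LB.ChB03V1_pp_022.C8

/-! # LINE tight chart ChB03V1_pp_022: boxes, assembly -/

namespace Pool.Agent.Strip051.LB.ChB03V1_pp_022

open Pool.Agent.Strip051.Box Pool.Agent.Strip051.Box2

theorem all (x1 x2 : ℝ) (h : Mem S b0 x1 x2) : Q x1 x2 := by
  rcases mem_split2 h with h | h
  · exact chk_all c0 x1 x2 h
  · rcases mem_split2 h with h | h
    · exact chk_all c1 x1 x2 h
    · rcases mem_split1 h with h | h
      · rcases mem_split2 h with h | h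
        · rcases mem_split1 h with h | h
          · exact chk_all c2 x1 x2 h
          · rcases mem_split2 h with h | h
            · exact chk_all c3 x1 x2 h
            · rcases mem_split1 h with h | h
              · rcases mem_split2 h with h | h
                · exact chk_all c4 x1 x2 h
                · rcases mem_split1 h with h | h
                  · exact chk_all c5 x1 x2 h
                  · rcases mem_split2 h with h | h
                    · exact chk_all c6 x1 x2 h
                    · rcases mem_split1 h with h | h
                      · rcases mem_split2 h with h | h
                        · exact chk_all c7 x1 x2 h
                        · exact chk_all c8 x1 x2 h
                      · exact chk_all c9 x1 x2 h
              · rcases mem_split2 h with h | h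
                · rcases mem_split1 h with h | h
                  · rcases mem_split2 h with h | h
                    · exact chk_all c10 x1 x2 h
                    · rcases mem_split2 h with h | h
                      · exact chk_all c11 x1 x2 h
                      · rcases mem_split2 h with h | h
                        · exact chk_all c12 x1 x2 h
                        · rcases mem_split1 h with h | h
                          · exact chk_all c13 x1 x2 h
                          · rcases mem_split1 h with h | h
                            · exact chk_all c14 x1 x2 h
                            · exact chk_all c15 x1 x2 h
                  · rcases mem_split2 h with h | h
                    · rcases mem_split2 h with h | h
                      · exact chk_all c16 x1 x2 h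
                      · rcases mem_split2 h with h | h
                        · rcases mem_split1 h with h | h
                          · exact chk_all c17 x1 x2 h
                          · rcases mem_split1 h with h | h
                            · exact chk_all c18 x1 x2 h
                            · rcases mem_split1 h with h | h
                              · exact chk_all c19 x1 x2 h
                              · rcases mem_split1 h with h | h
                                · exact chk_all c20 x1 x2 h
                                · exact chk_all c21 x1 x2 h
                        · rcases mem_split2 h with h | h
                          · rcases mem_split1 h with h | h
                            · exact chk_all c22 x1 x2 h
                            · rcases mem_split1 h with h | h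
                              · exact chk_all c23 x1 x2 h
                              · rcases mem_split1 h with h | h
                                · exact chk_all c24 x1 x2 h
                                · exact chk_all c25 x1 x2 h
                          · exact chk_all c26 x1 x2 h
                    · rcases mem_split1 h with h | h
                      · rcases mem_split2 h with h | h
                        · rcases mem_split2 h with h | h
                          · exact chk_all c27 x1 x2 h
                          · rcases mem_split1 h with h | h
                            · exact chk_all c28 x1 x2 h
                            · rcases mem_split1 h with h | h
                              · exact chk_all c29 x1 x2 h
                              · exact chk_all c30 x1 x2 h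
                        · rcases mem_split2 h with h | h
                          · rcases mem_split2 h with h | h
                            · exact chk_all c31 x1 x2 h
                            · exact chk_all c32 x1 x2 h
                          · exact chk_all c33 x1 x2 h
                      · rcases mem_split2 h with h | h
                        · rcases mem_split2 h with h | h
                          · rcases mem_split2 h with h | h
                            · exact chk_all c34 x1 x2 h
                            · exact chk_all c35 x1 x2 h
                          · exact chk_all c36 x1 x2 h
                        · exact chk_all c37 x1 x2 h
                · rcases mem_split1 h with h | h
                  · rcases mem_split2 h with h | h
                    · rcases mem_split1 h with h | h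
                      · rcases mem_split2 h with h | h
                        · exact chk_all c38 x1 x2 h
                        · exact chk_all c39 x1 x2 h
                      · rcases mem_split2 h with h | h
                        · rcases mem_split2 h with h | h
                          · exact chk_all c40 x1 x2 h
                          · exact chk_all c41 x1 x2 h
                        · exact chk_all c42 x1 x2 h
                    · exact chk_all c43 x1 x2 h
                  · exact chk_all c44 x1 x2 h
        · rcases mem_split1 h with h | h
          · exact chk_all c45 x1 x2 h
          · rcases mem_split2 h with h | h
            · rcases mem_split1 h with h | h
              · rcases mem_split2 h with h | h
                · rcases mem_split1 h with h | h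
                  · rcases mem_split2 h with h | h
                    · rcases mem_split1 h with h | h
                      · exact chk_all c46 x1 x2 h
                      · exact chk_all c47 x1 x2 h
                    · exact chk_all c48 x1 x2 h
                  · exact chk_all c49 x1 x2 h
                · exact chk_all c50 x1 x2 h
              · exact chk_all c51 x1 x2 h
            · exact chk_all c52 x1 x2 h
      · rcases mem_split2 h with h | h
        · rcases mem_split1 h with h | h
          · rcases mem_split2 h with h | h
            · exact chk_all c53 x1 x2 h
            · rcases mem_split1 h with h | h
              · rcases mem_split2 h with h | h
                · rcases mem_split1 h with h | h
                  · rcases mem_split2 h with h | h
                    · rcases mem_split1 h with h | h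
                      · rcases mem_split2 h with h | h
                        · rcases mem_split2 h with h | h
                          · rcases mem_split2 h with h | h
                            · rcases mem_split1 h with h | h
                              · exact chk_all c54 x1 x2 h
                              · rcases mem_split1 h with h | h
                                · exact chk_all c55 x1 x2 h
                                · rcases mem_split1 h with h | h
                                  · exact chk_all c56 x1 x2 h
                                  · exact chk_all c57 x1 x2 h
                            · rcases mem_split1 h with h | h
                              · exact chk_all c58 x1 x2 h
                              · rcases mem_split1 h with h | h
                                · exact chk_all c59 x1 x2 h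
                                · exact chk_all c60 x1 x2 h
                          · rcases mem_split2 h with h | h
                            · rcases mem_split1 h with h | h
                              · exact chk_all c61 x1 x2 h
                              · exact chk_all c62 x1 x2 h
                            · rcases mem_split1 h with h | h
                              · rcases mem_split1 h with h | h
                                · exact chk_all c63 x1 x2 h
                                · exact chk_all c64 x1 x2 h
                              · exact chk_all c65 x1 x2 h
                        · rcases mem_split2 h with h | h
                          · rcases mem_split2 h with h | h
                            · rcases mem_split2 h with h | h
                              · exact chk_all c66 x1 x2 h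
                              · exact chk_all c67 x1 x2 h
                            · exact chk_all c68 x1 x2 h
                          · exact chk_all c69 x1 x2 h
                      · exact chk_all c70 x1 x2 h
                    · exact chk_all c71 x1 x2 h
                  · exact chk_all c72 x1 x2 h
                · exact chk_all c73 x1 x2 h
              · exact chk_all c74 x1 x2 h
          · exact chk_all c75 x1 x2 h
        · exact chk_all c76 x1 x2 h

end Pool.Agent.Strip051.LB.ChB03V1_pp_022
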