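import Pool.Agent.Strip051.Box.C2
import Pool.Agent.Strip051.Box.S30
import Pool.Agent.Strip051.LB.Fc.F2

/-! # LINE tight chart ChB03V1_pp_022 -/

namespace Pool.Agent.Strip051.LB.ChB03V1_pp_022

open Pool.Agent.Strip051.Box Pool.Agent.Strip051.Box2

open Pool.Agent.Strip051.LB.Fc Pool.Agent.Strip051.LB.Fc.F2 Pool.Agent.Strip051.LB.Fn Pool.Agent.Strip051.LB.Fn.F2

/-- coordinates of a point of the box -/
def In (b : Bx) (E : Pt) (x1 x2 : ℝ) : Prop :=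
  (S : ℝ) * x1 = ((b.p1 : ℝ) - b.n1) + b.q1 * E.e1 ∧ (S : ℝ) * x2 = ((b.p2 : ℝ) - b.n2) + b.q2 * E.e2

variable {b : Bx} {E : Pt} {x1 x2 : ℝ}

def t0 (b : Bx) : TM := X1 b
noncomputable def v0 (x1 _x2 : ℝ) : ℝ := x1
theorem h0 (h : In b E x1 x2) : Enc S E (t0 b) (v0 x1 x2) := enc_X1 h.1

def t1 (b : Bx) : TM := X2 b
noncomputable def v1 (_x1 x2 : ℝ) : ℝ := x2
theorem h1 (h : In b E x1 x2) : Enc S E (t1 b) (v1 x1 x2) := enc_X2 h.2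

def t2 (_b : Bx) : TM := tconst 1859775393 0 1
noncomputable def v2 (_x1 _x2 : ℝ) : ℝ := Real.sqrt ((3 : ℕ) : ℝ)
theorem h2 (_h : In b E x1 x2) : Enc S E (t2 b) (v2 x1 x2) := enc_sqrtn E (by decide) (by decide)

def t3 (b : Bx) : TM := tscale 1 2 (t2 b)
noncomputable def v3 (x1 x2 : ℝ) : ℝ := ((1 : ℕ) : ℝ) / ((2 : ℕ) : ℝ) * v2 x1 x2
theorem h3 (h : In b E x1 x2) : Enc S E (t3 b) (v3 x1 x2) := enc_scale 1 (by norm_num) (h2 h)

def t4 (b : Bx) : TM := tsq S (t0 b)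
noncomputable def v4 (x1 x2 : ℝ) : ℝ := (v0 x1 x2) ^ 2
theorem h4 (h : In b E x1 x2) : Enc S E (t4 b) (v4 x1 x2) := enc_sq hS (h0 h)

def t5 (_b : Bx) : TM := tconst (Nat.mul 1 S) 0 0
noncomputable def v5 (_x1 _x2 : ℝ) : ℝ := ((1 : ℕ) : ℝ)
theorem h5 (_h : In b E x1 x2) : Enc S E (t5 b) (v5 x1 x2) := enc_nc E 1

def t6 (b : Bx) : TM := tsub (t5 b) (t4 b)
noncomputable def v6 (x1 x2 : ℝ) : ℝ := v5 x1 x2 - v4 x1 x2
theorem h6 (h : In b E x1 x2) : Enc S E (t6 b) (v6 x1 x2) := enc_sub (h5 h) (h4 h)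

def t7 (b : Bx) : TM := tsqrt S (t6 b)
noncomputable def v7 (x1 x2 : ℝ) : ℝ := Real.sqrt (v6 x1 x2)
theorem h7 (h : In b E x1 x2) : Enc S E (t7 b) (v7 x1 x2) := enc_sqrt hS (h6 h)

def t9 (_b : Bx) : TM := tconst (Nat.div (Nat.mul 1 S) 2) 0 1
noncomputable def v9 (_x1 _x2 : ℝ) : ℝ := ((1 : ℕ) : ℝ) / ((2 : ℕ) : ℝ)
theorem h9 (_h : In b E x1 x2) : Enc S E (t9 b) (v9 x1 x2) := enc_rat E 1 (by norm_num)

def t10 (b : Bx) : TM := tscale 1 2 (t7 b)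
noncomputable def v10 (x1 x2 : ℝ) : ℝ := ((1 : ℕ) : ℝ) / ((2 : ℕ) : ℝ) * v7 x1 x2
theorem h10 (h : In b E x1 x2) : Enc S E (t10 b) (v10 x1 x2) := enc_scale 1 (by norm_num) (h7 h)

def t11 (b : Bx) : TM := tmul S (t0 b) (t3 b)
noncomputable def v11 (x1 x2 : ℝ) : ℝ := v0 x1 x2 * v3 x1 x2
theorem h11 (h : In b E x1 x2) : Enc S E (t11 b) (v11 x1 x2) := enc_mul hS (h0 h) (h3 h)

def t13 (b : Bx) : TM := tscale 1 2 (t0 b)
noncomputable def v13 (x1 x2 : ℝ) : ℝ := ((1 : ℕ) : ℝ) / ((2 : ℕ) : ℝ) * v0 x1 x2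
theorem h13 (h : In b E x1 x2) : Enc S E (t13 b) (v13 x1 x2) := enc_scale 1 (by norm_num) (h0 h)

def t14 (b : Bx) : TM := tmul S (t7 b) (t3 b)
noncomputable def v14 (x1 x2 : ℝ) : ℝ := v7 x1 x2 * v3 x1 x2
theorem h14 (h : In b E x1 x2) : Enc S E (t14 b) (v14 x1 x2) := enc_mul hS (h7 h) (h3 h)

def t16 (b : Bx) : TM := tsub (t14 b) (t13 b)
noncomputable def v16 (x1 x2 : ℝ) : ℝ := v14 x1 x2 - v13 x1 x2
theorem h16 (h : In b E x1 x2) : Enc S E (t16 b) (v16 x1 x2) := enc_sub (h14 h) (h13 h)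

def t17 (b : Bx) : TM := tadd (t11 b) (t10 b)
noncomputable def v17 (x1 x2 : ℝ) : ℝ := v11 x1 x2 + v10 x1 x2
theorem h17 (h : In b E x1 x2) : Enc S E (t17 b) (v17 x1 x2) := enc_add (h11 h) (h10 h)

def t18 (b : Bx) : TM := tmul S (t16 b) (t2 b)
noncomputable def v18 (x1 x2 : ℝ) : ℝ := v16 x1 x2 * v2 x1 x2
theorem h18 (h : In b E x1 x2) : Enc S E (t18 b) (v18 x1 x2) := enc_mul hS (h16 h) (h2 h)

def t19 (b : Bx) : TM := tmul S (t17 b) (t2 b)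
noncomputable def v19 (x1 x2 : ℝ) : ℝ := v17 x1 x2 * v2 x1 x2
theorem h19 (h : In b E x1 x2) : Enc S E (t19 b) (v19 x1 x2) := enc_mul hS (h17 h) (h2 h)

def t20 (b : Bx) : TM := tsub (t1 b) (t18 b)
noncomputable def v20 (x1 x2 : ℝ) : ℝ := v1 x1 x2 - v18 x1 x2
theorem h20 (h : In b E x1 x2) : Enc S E (t20 b) (v20 x1 x2) := enc_sub (h1 h) (h18 h)

def t21 (b : Bx) : TM := tsq S (t1 b)
noncomputable def v21 (x1 x2 : ℝ) : ℝ := (v1 x1 x2) ^ 2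
theorem h21 (h : In b E x1 x2) : Enc S E (t21 b) (v21 x1 x2) := enc_sq hS (h1 h)

def t22 (_b : Bx) : TM := tconst (Nat.mul 3 S) 0 0
noncomputable def v22 (_x1 _x2 : ℝ) : ℝ := ((3 : ℕ) : ℝ)
theorem h22 (_h : In b E x1 x2) : Enc S E (t22 b) (v22 x1 x2) := enc_nc E 3

def t23 (b : Bx) : TM := tsub (t22 b) (t21 b)
noncomputable def v23 (x1 x2 : ℝ) : ℝ := v22 x1 x2 - v21 x1 x2
theorem h23 (h : In b E x1 x2) : Enc S E (t23 b) (v23 x1 x2) := enc_sub (h22 h) (h21 h)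

def t24 (b : Bx) : TM := tsqrt S (t23 b)
noncomputable def v24 (x1 x2 : ℝ) : ℝ := Real.sqrt (v23 x1 x2)
theorem h24 (h : In b E x1 x2) : Enc S E (t24 b) (v24 x1 x2) := enc_sqrt hS (h23 h)

def t25 (b : Bx) : TM := tsub (t1 b) (t7 b)
noncomputable def v25 (x1 x2 : ℝ) : ℝ := v1 x1 x2 - v7 x1 x2
theorem h25 (h : In b E x1 x2) : Enc S E (t25 b) (v25 x1 x2) := enc_sub (h1 h) (h7 h)

def t26 (b : Bx) : TM := tsub (t24 b) (t0 b)
noncomputable def v26 (x1 x2 : ℝ) : ℝ := v24 x1 x2 - v0 x1 x2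
theorem h26 (h : In b E x1 x2) : Enc S E (t26 b) (v26 x1 x2) := enc_sub (h24 h) (h0 h)

def t27 (b : Bx) : TM := tsub (t18 b) (t1 b)
noncomputable def v27 (x1 x2 : ℝ) : ℝ := v18 x1 x2 - v1 x1 x2
theorem h27 (h : In b E x1 x2) : Enc S E (t27 b) (v27 x1 x2) := enc_sub (h18 h) (h1 h)

def t28 (b : Bx) : TM := tmul S (t2 b) (t0 b)
noncomputable def v28 (x1 x2 : ℝ) : ℝ := v2 x1 x2 * v0 x1 x2
theorem h28 (h : In b E x1 x2) : Enc S E (t28 b) (v28 x1 x2) := enc_mul hS (h2 h) (h0 h)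

def t29 (b : Bx) : TM := tsub (t7 b) (t28 b)
noncomputable def v29 (x1 x2 : ℝ) : ℝ := v7 x1 x2 - v28 x1 x2
theorem h29 (h : In b E x1 x2) : Enc S E (t29 b) (v29 x1 x2) := enc_sub (h7 h) (h28 h)

def t30 (b : Bx) : TM := tadd (t5 b) (t7 b)
noncomputable def v30 (x1 x2 : ℝ) : ℝ := v5 x1 x2 + v7 x1 x2
theorem h30 (h : In b E x1 x2) : Enc S E (t30 b) (v30 x1 x2) := enc_add (h5 h) (h7 h)

def t31 (b : Bx) : TM := tmul S (t29 b) (t30 b)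
noncomputable def v31 (x1 x2 : ℝ) : ℝ := v29 x1 x2 * v30 x1 x2
theorem h31 (h : In b E x1 x2) : Enc S E (t31 b) (v31 x1 x2) := enc_mul hS (h29 h) (h30 h)

def t32 (b : Bx) : TM := tsub (t30 b) (t28 b)
noncomputable def v32 (x1 x2 : ℝ) : ℝ := v30 x1 x2 - v28 x1 x2
theorem h32 (h : In b E x1 x2) : Enc S E (t32 b) (v32 x1 x2) := enc_sub (h30 h) (h28 h)

def t33 (b : Bx) : TM := tinv S (t32 b)
noncomputable def v33 (x1 x2 : ℝ) : ℝ := (v32 x1 x2)⁻¹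
theorem h33 (h : In b E x1 x2) : Enc S E (t33 b) (v33 x1 x2) := enc_inv hS (h32 h)

def t34 (b : Bx) : TM := tmul S (t31 b) (t33 b)
noncomputable def v34 (x1 x2 : ℝ) : ℝ := v31 x1 x2 * v33 x1 x2
theorem h34 (h : In b E x1 x2) : Enc S E (t34 b) (v34 x1 x2) := enc_mul hS (h31 h) (h33 h)

def t37 (b : Bx) : TM := tadd (t1 b) (t22 b)
noncomputable def v37 (x1 x2 : ℝ) : ℝ := v1 x1 x2 + v22 x1 x2
theorem h37 (h : In b E x1 x2) : Enc S E (t37 b) (v37 x1 x2) := enc_add (h1 h) (h22 h)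

def t38 (b : Bx) : TM := tmul S (t2 b) (t24 b)
noncomputable def v38 (x1 x2 : ℝ) : ℝ := v2 x1 x2 * v24 x1 x2
theorem h38 (h : In b E x1 x2) : Enc S E (t38 b) (v38 x1 x2) := enc_mul hS (h2 h) (h24 h)

def t39 (b : Bx) : TM := tsub (t37 b) (t38 b)
noncomputable def v39 (x1 x2 : ℝ) : ℝ := v37 x1 x2 - v38 x1 x2
theorem h39 (h : In b E x1 x2) : Enc S E (t39 b) (v39 x1 x2) := enc_sub (h37 h) (h38 h)

def t41 (b : Bx) : TM := tsub (t2 b) (t24 b)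
noncomputable def v41 (x1 x2 : ℝ) : ℝ := v2 x1 x2 - v24 x1 x2
theorem h41 (h : In b E x1 x2) : Enc S E (t41 b) (v41 x1 x2) := enc_sub (h2 h) (h24 h)

def t42 (b : Bx) : TM := tnat 4 (t41 b)
noncomputable def v42 (x1 x2 : ℝ) : ℝ := ((4 : ℕ) : ℝ) * v41 x1 x2
theorem h42 (h : In b E x1 x2) : Enc S E (t42 b) (v42 x1 x2) := enc_nat 4 (h41 h)

def t43 (b : Bx) : TM := tinv S (t42 b)
noncomputable def v43 (x1 x2 : ℝ) : ℝ := (v42 x1 x2)⁻¹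
theorem h43 (h : In b E x1 x2) : Enc S E (t43 b) (v43 x1 x2) := enc_inv hS (h42 h)

def t45 (b : Bx) : TM := tsq S (t25 b)
noncomputable def v45 (x1 x2 : ℝ) : ℝ := (v25 x1 x2) ^ 2
theorem h45 (h : In b E x1 x2) : Enc S E (t45 b) (v45 x1 x2) := enc_sq hS (h25 h)

def t46 (b : Bx) : TM := tsq S (t26 b)
noncomputable def v46 (x1 x2 : ℝ) : ℝ := (v26 x1 x2) ^ 2
theorem h46 (h : In b E x1 x2) : Enc S E (t46 b) (v46 x1 x2) := enc_sq hS (h26 h)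

def t47 (b : Bx) : TM := tadd (t45 b) (t46 b)
noncomputable def v47 (x1 x2 : ℝ) : ℝ := v45 x1 x2 + v46 x1 x2
theorem h47 (h : In b E x1 x2) : Enc S E (t47 b) (v47 x1 x2) := enc_add (h45 h) (h46 h)

def t49 (b : Bx) : TM := tneg (t5 b)
noncomputable def v49 (x1 x2 : ℝ) : ℝ := -(v5 x1 x2)
theorem h49 (h : In b E x1 x2) : Enc S E (t49 b) (v49 x1 x2) := enc_neg (h5 h)

def t51 (b : Bx) : TM := tsub (t18 b) (t7 b)
noncomputable def v51 (x1 x2 : ℝ) : ℝ := v18 x1 x2 - v7 x1 x2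
theorem h51 (h : In b E x1 x2) : Enc S E (t51 b) (v51 x1 x2) := enc_sub (h18 h) (h7 h)

def t53 (b : Bx) : TM := tadd (t25 b) (t51 b)
noncomputable def v53 (x1 x2 : ℝ) : ℝ := v25 x1 x2 + v51 x1 x2
theorem h53 (h : In b E x1 x2) : Enc S E (t53 b) (v53 x1 x2) := enc_add (h25 h) (h51 h)

def t56 (b : Bx) : TM := tadd (t1 b) (t18 b)
noncomputable def v56 (x1 x2 : ℝ) : ℝ := v1 x1 x2 + v18 x1 x2
theorem h56 (h : In b E x1 x2) : Enc S E (t56 b) (v56 x1 x2) := enc_add (h1 h) (h18 h)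

def t59 (b : Bx) : TM := tadd (t24 b) (t19 b)
noncomputable def v59 (x1 x2 : ℝ) : ℝ := v24 x1 x2 + v19 x1 x2
theorem h59 (h : In b E x1 x2) : Enc S E (t59 b) (v59 x1 x2) := enc_add (h24 h) (h19 h)

def t60 (b : Bx) : TM := tinv S (t59 b)
noncomputable def v60 (x1 x2 : ℝ) : ℝ := (v59 x1 x2)⁻¹
theorem h60 (h : In b E x1 x2) : Enc S E (t60 b) (v60 x1 x2) := enc_inv hS (h59 h)

def t61 (b : Bx) : TM := tmul S (t56 b) (t60 b)
noncomputable def v61 (x1 x2 : ℝ) : ℝ := v56 x1 x2 * v60 x1 x2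
theorem h61 (h : In b E x1 x2) : Enc S E (t61 b) (v61 x1 x2) := enc_mul hS (h56 h) (h60 h)

def t62 (b : Bx) : TM := tsub (t19 b) (t0 b)
noncomputable def v62 (x1 x2 : ℝ) : ℝ := v19 x1 x2 - v0 x1 x2
theorem h62 (h : In b E x1 x2) : Enc S E (t62 b) (v62 x1 x2) := enc_sub (h19 h) (h0 h)

def t64 (b : Bx) : TM := tadd (t26 b) (t62 b)
noncomputable def v64 (x1 x2 : ℝ) : ℝ := v26 x1 x2 + v62 x1 x2
theorem h64 (h : In b E x1 x2) : Enc S E (t64 b) (v64 x1 x2) := enc_add (h26 h) (h62 h)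

def t65 (b : Bx) : TM := tmul S (t61 b) (t64 b)
noncomputable def v65 (x1 x2 : ℝ) : ℝ := v61 x1 x2 * v64 x1 x2
theorem h65 (h : In b E x1 x2) : Enc S E (t65 b) (v65 x1 x2) := enc_mul hS (h61 h) (h64 h)

def t67 (b : Bx) : TM := tsub (t65 b) (t53 b)
noncomputable def v67 (x1 x2 : ℝ) : ℝ := v65 x1 x2 - v53 x1 x2
theorem h67 (h : In b E x1 x2) : Enc S E (t67 b) (v67 x1 x2) := enc_sub (h65 h) (h53 h)

def t69 (b : Bx) : TM := kx2_t (t25 b) (t26 b)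
noncomputable def v69 (x1 x2 : ℝ) : ℝ := kx2_v (v25 x1 x2) (v26 x1 x2)
theorem h69 (h : In b E x1 x2) : Enc S E (t69 b) (v69 x1 x2) := kx2_enc (h25 h) (h26 h)

def t70 (b : Bx) : TM := f2p_t (t26 b)
noncomputable def v70 (x1 x2 : ℝ) : ℝ := f2p_v (v26 x1 x2)
theorem h70 (h : In b E x1 x2) : Enc S E (t70 b) (v70 x1 x2) := f2p_enc (h26 h)

def t71 (b : Bx) : TM := tsub (t70 b) (t25 b)
noncomputable def v71 (x1 x2 : ℝ) : ℝ := v70 x1 x2 - v25 x1 x2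
theorem h71 (h : In b E x1 x2) : Enc S E (t71 b) (v71 x1 x2) := enc_sub (h70 h) (h25 h)

def t72 (b : Bx) : TM := tadd (t70 b) (t25 b)
noncomputable def v72 (x1 x2 : ℝ) : ℝ := v70 x1 x2 + v25 x1 x2
theorem h72 (h : In b E x1 x2) : Enc S E (t72 b) (v72 x1 x2) := enc_add (h70 h) (h25 h)

def t75 (b : Bx) : TM := tmul S (t67 b) (t69 b)
noncomputable def v75 (x1 x2 : ℝ) : ℝ := v67 x1 x2 * v69 x1 x2
theorem h75 (h : In b E x1 x2) : Enc S E (t75 b) (v75 x1 x2) := enc_mul hS (h67 h) (h69 h)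

def t76 (b : Bx) : TM := tsub (t75 b) (t5 b)
noncomputable def v76 (x1 x2 : ℝ) : ℝ := v75 x1 x2 - v5 x1 x2
theorem h76 (h : In b E x1 x2) : Enc S E (t76 b) (v76 x1 x2) := enc_sub (h75 h) (h5 h)

def t77 (b : Bx) : TM := tmul S (t7 b) (t24 b)
noncomputable def v77 (x1 x2 : ℝ) : ℝ := v7 x1 x2 * v24 x1 x2
theorem h77 (h : In b E x1 x2) : Enc S E (t77 b) (v77 x1 x2) := enc_mul hS (h7 h) (h24 h)

def t78 (b : Bx) : TM := tmul S (t1 b) (t0 b)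
noncomputable def v78 (x1 x2 : ℝ) : ℝ := v1 x1 x2 * v0 x1 x2
theorem h78 (h : In b E x1 x2) : Enc S E (t78 b) (v78 x1 x2) := enc_mul hS (h1 h) (h0 h)

def t79 (b : Bx) : TM := tsub (t77 b) (t78 b)
noncomputable def v79 (x1 x2 : ℝ) : ℝ := v77 x1 x2 - v78 x1 x2
theorem h79 (h : In b E x1 x2) : Enc S E (t79 b) (v79 x1 x2) := enc_sub (h77 h) (h78 h)

def t80 (b : Bx) : TM := tinv S (t2 b)
noncomputable def v80 (x1 x2 : ℝ) : ℝ := (v2 x1 x2)⁻¹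
theorem h80 (h : In b E x1 x2) : Enc S E (t80 b) (v80 x1 x2) := enc_inv hS (h2 h)

def t81 (b : Bx) : TM := tmul S (t79 b) (t80 b)
noncomputable def v81 (x1 x2 : ℝ) : ℝ := v79 x1 x2 * v80 x1 x2
theorem h81 (h : In b E x1 x2) : Enc S E (t81 b) (v81 x1 x2) := enc_mul hS (h79 h) (h80 h)

def t82 (b : Bx) : TM := tsub (t81 b) (t9 b)
noncomputable def v82 (x1 x2 : ℝ) : ℝ := v81 x1 x2 - v9 x1 x2
theorem h82 (h : In b E x1 x2) : Enc S E (t82 b) (v82 x1 x2) := enc_sub (h81 h) (h9 h)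

def t84 (b : Bx) : TM := tmul S (t7 b) (t61 b)
noncomputable def v84 (x1 x2 : ℝ) : ℝ := v7 x1 x2 * v61 x1 x2
theorem h84 (h : In b E x1 x2) : Enc S E (t84 b) (v84 x1 x2) := enc_mul hS (h7 h) (h61 h)

def t88 (b : Bx) : TM := tadd (t84 b) (t0 b)
noncomputable def v88 (x1 x2 : ℝ) : ℝ := v84 x1 x2 + v0 x1 x2
theorem h88 (h : In b E x1 x2) : Enc S E (t88 b) (v88 x1 x2) := enc_add (h84 h) (h0 h)

def t90 (b : Bx) : TM := tmul S (t88 b) (t80 b)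
noncomputable def v90 (x1 x2 : ℝ) : ℝ := v88 x1 x2 * v80 x1 x2
theorem h90 (h : In b E x1 x2) : Enc S E (t90 b) (v90 x1 x2) := enc_mul hS (h88 h) (h80 h)

def t92 (b : Bx) : TM := tsub (t26 b) (t3 b)
noncomputable def v92 (x1 x2 : ℝ) : ℝ := v26 x1 x2 - v3 x1 x2
theorem h92 (h : In b E x1 x2) : Enc S E (t92 b) (v92 x1 x2) := enc_sub (h26 h) (h3 h)

def t94 (b : Bx) : TM := tmul S (t2 b) (t18 b)
noncomputable def v94 (x1 x2 : ℝ) : ℝ := v2 x1 x2 * v18 x1 x2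
theorem h94 (h : In b E x1 x2) : Enc S E (t94 b) (v94 x1 x2) := enc_mul hS (h2 h) (h18 h)

def t95 (b : Bx) : TM := tneg (t2 b)
noncomputable def v95 (x1 x2 : ℝ) : ℝ := -(v2 x1 x2)
theorem h95 (h : In b E x1 x2) : Enc S E (t95 b) (v95 x1 x2) := enc_neg (h2 h)

def t96 (b : Bx) : TM := tsub (t94 b) (t19 b)
noncomputable def v96 (x1 x2 : ℝ) : ℝ := v94 x1 x2 - v19 x1 x2
theorem h96 (h : In b E x1 x2) : Enc S E (t96 b) (v96 x1 x2) := enc_sub (h94 h) (h19 h)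

def t97 (b : Bx) : TM := tsub (t95 b) (t61 b)
noncomputable def v97 (x1 x2 : ℝ) : ℝ := v95 x1 x2 - v61 x1 x2
theorem h97 (h : In b E x1 x2) : Enc S E (t97 b) (v97 x1 x2) := enc_sub (h95 h) (h61 h)

def t98 (b : Bx) : TM := tadd (t18 b) (t22 b)
noncomputable def v98 (x1 x2 : ℝ) : ℝ := v18 x1 x2 + v22 x1 x2
theorem h98 (h : In b E x1 x2) : Enc S E (t98 b) (v98 x1 x2) := enc_add (h18 h) (h22 h)

def t99 (b : Bx) : TM := tmul S (t2 b) (t19 b)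
noncomputable def v99 (x1 x2 : ℝ) : ℝ := v2 x1 x2 * v19 x1 x2
theorem h99 (h : In b E x1 x2) : Enc S E (t99 b) (v99 x1 x2) := enc_mul hS (h2 h) (h19 h)

def t100 (b : Bx) : TM := tmul S (t2 b) (t61 b)
noncomputable def v100 (x1 x2 : ℝ) : ℝ := v2 x1 x2 * v61 x1 x2
theorem h100 (h : In b E x1 x2) : Enc S E (t100 b) (v100 x1 x2) := enc_mul hS (h2 h) (h61 h)

def t101 (b : Bx) : TM := tsub (t98 b) (t99 b)
noncomputable def v101 (x1 x2 : ℝ) : ℝ := v98 x1 x2 - v99 x1 x2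
theorem h101 (h : In b E x1 x2) : Enc S E (t101 b) (v101 x1 x2) := enc_sub (h98 h) (h99 h)

def t102 (b : Bx) : TM := tsub (t49 b) (t100 b)
noncomputable def v102 (x1 x2 : ℝ) : ℝ := v49 x1 x2 - v100 x1 x2
theorem h102 (h : In b E x1 x2) : Enc S E (t102 b) (v102 x1 x2) := enc_sub (h49 h) (h100 h)

def t103 (b : Bx) : TM := tmul S (t96 b) (t101 b)
noncomputable def v103 (x1 x2 : ℝ) : ℝ := v96 x1 x2 * v101 x1 x2
theorem h103 (h : In b E x1 x2) : Enc S E (t103 b) (v103 x1 x2) := enc_mul hS (h96 h) (h101 h)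

def t104 (b : Bx) : TM := tmul S (t97 b) (t39 b)
noncomputable def v104 (x1 x2 : ℝ) : ℝ := v97 x1 x2 * v39 x1 x2
theorem h104 (h : In b E x1 x2) : Enc S E (t104 b) (v104 x1 x2) := enc_mul hS (h97 h) (h39 h)

def t105 (b : Bx) : TM := tmul S (t96 b) (t102 b)
noncomputable def v105 (x1 x2 : ℝ) : ℝ := v96 x1 x2 * v102 x1 x2
theorem h105 (h : In b E x1 x2) : Enc S E (t105 b) (v105 x1 x2) := enc_mul hS (h96 h) (h102 h)

def t106 (b : Bx) : TM := tadd (t104 b) (t105 b)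
noncomputable def v106 (x1 x2 : ℝ) : ℝ := v104 x1 x2 + v105 x1 x2
theorem h106 (h : In b E x1 x2) : Enc S E (t106 b) (v106 x1 x2) := enc_add (h104 h) (h105 h)

def t107 (b : Bx) : TM := tsub (t2 b) (t19 b)
noncomputable def v107 (x1 x2 : ℝ) : ℝ := v2 x1 x2 - v19 x1 x2
theorem h107 (h : In b E x1 x2) : Enc S E (t107 b) (v107 x1 x2) := enc_sub (h2 h) (h19 h)

def t109 (b : Bx) : TM := tnat 4 (t107 b)
noncomputable def v109 (x1 x2 : ℝ) : ℝ := ((4 : ℕ) : ℝ) * v107 x1 x2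
theorem h109 (h : In b E x1 x2) : Enc S E (t109 b) (v109 x1 x2) := enc_nat 4 (h107 h)

def t110 (b : Bx) : TM := tnat 4 (t61 b)
noncomputable def v110 (x1 x2 : ℝ) : ℝ := ((4 : ℕ) : ℝ) * v61 x1 x2
theorem h110 (h : In b E x1 x2) : Enc S E (t110 b) (v110 x1 x2) := enc_nat 4 (h61 h)

def t112 (b : Bx) : TM := tinv S (t109 b)
noncomputable def v112 (x1 x2 : ℝ) : ℝ := (v109 x1 x2)⁻¹
theorem h112 (h : In b E x1 x2) : Enc S E (t112 b) (v112 x1 x2) := enc_inv hS (h109 h)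

def t113 (b : Bx) : TM := tmul S (t43 b) (t112 b)
noncomputable def v113 (x1 x2 : ℝ) : ℝ := v43 x1 x2 * v112 x1 x2
theorem h113 (h : In b E x1 x2) : Enc S E (t113 b) (v113 x1 x2) := enc_mul hS (h43 h) (h112 h)

def t114 (b : Bx) : TM := tmul S (t110 b) (t113 b)
noncomputable def v114 (x1 x2 : ℝ) : ℝ := v110 x1 x2 * v113 x1 x2
theorem h114 (h : In b E x1 x2) : Enc S E (t114 b) (v114 x1 x2) := enc_mul hS (h110 h) (h113 h)

def t117 (b : Bx) : TM := tmul S (t106 b) (t43 b)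
noncomputable def v117 (x1 x2 : ℝ) : ℝ := v106 x1 x2 * v43 x1 x2
theorem h117 (h : In b E x1 x2) : Enc S E (t117 b) (v117 x1 x2) := enc_mul hS (h106 h) (h43 h)

def t118 (b : Bx) : TM := tmul S (t103 b) (t114 b)
noncomputable def v118 (x1 x2 : ℝ) : ℝ := v103 x1 x2 * v114 x1 x2
theorem h118 (h : In b E x1 x2) : Enc S E (t118 b) (v118 x1 x2) := enc_mul hS (h103 h) (h114 h)

def t119 (b : Bx) : TM := tadd (t117 b) (t118 b)
noncomputable def v119 (x1 x2 : ℝ) : ℝ := v117 x1 x2 + v118 x1 x2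
theorem h119 (h : In b E x1 x2) : Enc S E (t119 b) (v119 x1 x2) := enc_add (h117 h) (h118 h)

def t120 (b : Bx) : TM := tsub (t119 b) (t76 b)
noncomputable def v120 (x1 x2 : ℝ) : ℝ := v119 x1 x2 - v76 x1 x2
theorem h120 (h : In b E x1 x2) : Enc S E (t120 b) (v120 x1 x2) := enc_sub (h119 h) (h76 h)

def t122 (b : Bx) : TM := tmul S (t0 b) (t119 b)
noncomputable def v122 (x1 x2 : ℝ) : ℝ := v0 x1 x2 * v119 x1 x2
theorem h122 (h : In b E x1 x2) : Enc S E (t122 b) (v122 x1 x2) := enc_mul hS (h0 h) (h119 h)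

def t123 (b : Bx) : TM := tmul S (t61 b) (t34 b)
noncomputable def v123 (x1 x2 : ℝ) : ℝ := v61 x1 x2 * v34 x1 x2
theorem h123 (h : In b E x1 x2) : Enc S E (t123 b) (v123 x1 x2) := enc_mul hS (h61 h) (h34 h)

def t124 (b : Bx) : TM := tsub (t122 b) (t123 b)
noncomputable def v124 (x1 x2 : ℝ) : ℝ := v122 x1 x2 - v123 x1 x2
theorem h124 (h : In b E x1 x2) : Enc S E (t124 b) (v124 x1 x2) := enc_sub (h122 h) (h123 h)

def t125 (b : Bx) : TM := tmul S (t0 b) (t120 b)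
noncomputable def v125 (x1 x2 : ℝ) : ℝ := v0 x1 x2 * v120 x1 x2
theorem h125 (h : In b E x1 x2) : Enc S E (t125 b) (v125 x1 x2) := enc_mul hS (h0 h) (h120 h)

def t126 (b : Bx) : TM := tsub (t124 b) (t125 b)
noncomputable def v126 (x1 x2 : ℝ) : ℝ := v124 x1 x2 - v125 x1 x2
theorem h126 (h : In b E x1 x2) : Enc S E (t126 b) (v126 x1 x2) := enc_sub (h124 h) (h125 h)

def t129 (b : Bx) : TM := tsub (t3 b) (t26 b)
noncomputable def v129 (x1 x2 : ℝ) : ℝ := v3 x1 x2 - v26 x1 x2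
theorem h129 (h : In b E x1 x2) : Enc S E (t129 b) (v129 x1 x2) := enc_sub (h3 h) (h26 h)

def t130 (b : Bx) : TM := tsub (t3 b) (t24 b)
noncomputable def v130 (x1 x2 : ℝ) : ℝ := v3 x1 x2 - v24 x1 x2
theorem h130 (h : In b E x1 x2) : Enc S E (t130 b) (v130 x1 x2) := enc_sub (h3 h) (h24 h)

def t131 (b : Bx) : TM := qn_t (t0 b) (t92 b) (t90 b) (t126 b) (t120 b)
noncomputable def v131 (x1 x2 : ℝ) : ℝ := qn_v (v0 x1 x2) (v92 x1 x2) (v90 x1 x2) (v126 x1 x2) (v120 x1 x2)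
theorem h131 (h : In b E x1 x2) : Enc S E (t131 b) (v131 x1 x2) := qn_enc (h0 h) (h92 h) (h90 h) (h126 h) (h120 h)

def t132 (b : Bx) : TM := tscale 1 4 (t2 b)
noncomputable def v132 (x1 x2 : ℝ) : ℝ := ((1 : ℕ) : ℝ) / ((4 : ℕ) : ℝ) * v2 x1 x2
theorem h132 (h : In b E x1 x2) : Enc S E (t132 b) (v132 x1 x2) := enc_scale 1 (by norm_num) (h2 h)

def t134 (b : Bx) : TM := tsub (t0 b) (t132 b)
noncomputable def v134 (x1 x2 : ℝ) : ℝ := v0 x1 x2 - v132 x1 x2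
theorem h134 (h : In b E x1 x2) : Enc S E (t134 b) (v134 x1 x2) := enc_sub (h0 h) (h132 h)

def t135 (b : Bx) : TM := tscale 3 4 (t2 b)
noncomputable def v135 (x1 x2 : ℝ) : ℝ := ((3 : ℕ) : ℝ) / ((4 : ℕ) : ℝ) * v2 x1 x2
theorem h135 (h : In b E x1 x2) : Enc S E (t135 b) (v135 x1 x2) := enc_scale 3 (by norm_num) (h2 h)

def t137 (b : Bx) : TM := tsub (t26 b) (t135 b)
noncomputable def v137 (x1 x2 : ℝ) : ℝ := v26 x1 x2 - v135 x1 x2
theorem h137 (h : In b E x1 x2) : Enc S E (t137 b) (v137 x1 x2) := enc_sub (h26 h) (h135 h)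

def t139 (b : Bx) : TM := tsub (t24 b) (t135 b)
noncomputable def v139 (x1 x2 : ℝ) : ℝ := v24 x1 x2 - v135 x1 x2
theorem h139 (h : In b E x1 x2) : Enc S E (t139 b) (v139 x1 x2) := enc_sub (h24 h) (h135 h)

def t140 (_b : Bx) : TM := tconst (Nat.div (Nat.mul 1 S) 16) 0 1
noncomputable def v140 (_x1 _x2 : ℝ) : ℝ := ((1 : ℕ) : ℝ) / ((16 : ℕ) : ℝ)
theorem h140 (_h : In b E x1 x2) : Enc S E (t140 b) (v140 x1 x2) := enc_rat E 1 (by norm_num)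

def t141 (b : Bx) : TM := tsub (t27 b) (t140 b)
noncomputable def v141 (x1 x2 : ℝ) : ℝ := v27 x1 x2 - v140 x1 x2
theorem h141 (h : In b E x1 x2) : Enc S E (t141 b) (v141 x1 x2) := enc_sub (h27 h) (h140 h)

def t142 (b : Bx) : TM := tsub (t20 b) (t140 b)
noncomputable def v142 (x1 x2 : ℝ) : ℝ := v20 x1 x2 - v140 x1 x2
theorem h142 (h : In b E x1 x2) : Enc S E (t142 b) (v142 x1 x2) := enc_sub (h20 h) (h140 h)

def t143 (b : Bx) : TM := tsub (t0 b) (t24 b)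
noncomputable def v143 (x1 x2 : ℝ) : ℝ := v0 x1 x2 - v24 x1 x2
theorem h143 (h : In b E x1 x2) : Enc S E (t143 b) (v143 x1 x2) := enc_sub (h0 h) (h24 h)

def t144 (b : Bx) : TM := tsub (t5 b) (t47 b)
noncomputable def v144 (x1 x2 : ℝ) : ℝ := v5 x1 x2 - v47 x1 x2
theorem h144 (h : In b E x1 x2) : Enc S E (t144 b) (v144 x1 x2) := enc_sub (h5 h) (h47 h)

def t145 (b : Bx) : TM := tadd (t82 b) (t9 b)
noncomputable def v145 (x1 x2 : ℝ) : ℝ := v82 x1 x2 + v9 x1 x2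
theorem h145 (h : In b E x1 x2) : Enc S E (t145 b) (v145 x1 x2) := enc_add (h82 h) (h9 h)

def t146 (b : Bx) : TM := tneg (t145 b)
noncomputable def v146 (x1 x2 : ℝ) : ℝ := -(v145 x1 x2)
theorem h146 (h : In b E x1 x2) : Enc S E (t146 b) (v146 x1 x2) := enc_neg (h145 h)

def g0 (b : Bx) : Bool := and (pos (t67 b)) (and (pos (t23 b)) (and (pos (t59 b)) (and (pos (t71 b)) (and (pos (t72 b)) (and (pos (t42 b)) (and (pos (t109 b)) (and (pos (t32 b)) (or (pos (t20 b)) (pos (t131 b))))))))))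

def l0 (b : Bx) : Nat := cond (g0 b) 0 (pickb 1 (t131 b) b)

def P0 (x1 x2 : ℝ) : Prop := 0 < v67 x1 x2 ∧ 0 < v23 x1 x2 ∧ 0 < v59 x1 x2 ∧ 0 < v71 x1 x2 ∧ 0 < v72 x1 x2 ∧ 0 < v42 x1 x2 ∧ 0 < v109 x1 x2 ∧ 0 < v32 x1 x2 ∧ (0 < v20 x1 x2 ∨ 0 < v131 x1 x2)

theorem l0_sound (h : In b E x1 x2) (e : l0 b = 0) : P0 x1 x2 := by
  have e1 : g0 b = true := by
    rcases e2 : g0 b with _ | _
    · unfold l0 at e; rw [e2, cond_false] at e; exact absurd e (pickb_ne _ _ _)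
    · rfl
  exact ⟨pos_sound hS (h67 h) (Bool.and_eq_true_iff.mp e1).1, ⟨pos_sound hS (h23 h) (Bool.and_eq_true_iff.mp (Bool.and_eq_true_iff.mp e1).2).1, ⟨pos_sound hS (h59 h) (Bool.and_eq_true_iff.mp (Bool.and_eq_true_iff.mp (Bool.and_eq_true_iff.mp e1).2).2).1, ⟨pos_sound hS (h71 h) (Bool.and_eq_true_iff.mp (Bool.and_eq_true_iff.mp (Bool.and_eq_true_iff.mp (Bool.and_eq_true_iff.mp e1).2).2).2).1, ⟨pos_sound hS (h72 h) (Bool.and_eq_true_iff.mp (Bool.and_eq_true_iff.mp (Bool.and_eq_true_iff.mp (Bool.and_eq_true_iff.mp (Bool.and_eq_true_iff.mp e1).2).2).2).2).1, ⟨pos_sound hS (h42 h) (Bool.and_eq_true_iff.mp (Bool.and_eq_true_iff.mp (Bool.and_eq_true_iff.mp (Bool.and_eq_true_iff.mp (Bool.and_eq_true_iff.mp (Bool.and_eq_true_iff.mp e1).2).2).2).2).2).1, ⟨pos_sound hS (h109 h) (Bool.and_eq_true_iff.mp (Bool.and_eq_true_iff.mp (Bool.and_eq_true_iff.mp (Bool.and_eq_true_iff.mp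 (Bool.and_eq_true_iff.mp (Bool.and_eq_true_iff.mp (Bool.and_eq_true_iff.mp e1).2).2).2).2).2).2).1, ⟨pos_sound hS (h32 h) (Bool.and_eq_true_iff.mp (Bool.and_eq_true_iff.mp (Bool.and_eq_true_iff.mp (Bool.and_eq_true_iff.mp (Bool.and_eq_true_iff.mp (Bool.and_eq_true_iff.mp (Bool.and_eq_true_iff.mp (Bool.and_eq_true_iff.mp e1).2).2).2).2).2).2).2).1, ((Bool.or_eq_true_iff.mp (Bool.and_eq_true_iff.mp (Bool.and_eq_true_iff.mp (Bool.and_eq_true_iff.mp (Bool.and_eq_true_iff.mp (Bool.and_eq_true_iff.mp (Bool.and_eq_true_iff.mp (Bool.and_eq_true_iff.mp (Bool.and_eq_true_iff.mp e1).2).2).2).2).2).2).2).2).imp (fun a => pos_sound hS (h20 h) a) (fun a => pos_sound hS (h131 h) a))⟩⟩⟩⟩⟩⟩⟩⟩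

def g1 (b : Bx) : Bool := or (pos (t134 b)) (or (pos (t129 b)) (or (pos (t137 b)) (or (pos (t130 b)) (or (pos (t139 b)) (or (pos (t141 b)) (or (pos (t142 b)) (or (pos (t143 b)) (or (pos (t144 b)) (pos (t146 b))))))))))

def l1 (b : Bx) : Nat := cond (g1 b) 0 (l0 b)

def P1 (x1 x2 : ℝ) : Prop := (0 < v134 x1 x2 ∨ 0 < v129 x1 x2 ∨ 0 < v137 x1 x2 ∨ 0 < v130 x1 x2 ∨ 0 < v139 x1 x2 ∨ 0 < v141 x1 x2 ∨ 0 < v142 x1 x2 ∨ 0 < v143 x1 x2 ∨ 0 < v144 x1 x2 ∨ 0 < v146 x1 x2) ∨ (P0 x1 x2)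

theorem l1_sound (h : In b E x1 x2) (e : l1 b = 0) : P1 x1 x2 := by
  unfold l1 at e
  rcases e1 : g1 b with _ | _
  · rw [e1, cond_false] at e
    have z0 : l0 b = 0 := e
    exact Or.inr (l0_sound h z0)
  · exact Or.inl (((Bool.or_eq_true_iff.mp e1).imp (fun a => pos_sound hS (h134 h) a) (fun a => ((Bool.or_eq_true_iff.mp a).imp (fun a => pos_sound hS (h129 h) a) (fun a => ((Bool.or_eq_true_iff.mp a).imp (fun a => pos_sound hS (h137 h) a) (fun a => ((Bool.or_eq_true_iff.mp a).imp (fun a => pos_sound hS (h130 h) a) (fun a => ((Bool.or_eq_true_iff.mp a).imp (fun a => pos_sound hS (h139 h) a) (fun a => ((Bool.or_eq_true_iff.mp a).imp (fun a => pos_sound hS (h141 h) a) (fun a => ((Bool.or_eq_true_iff.mp a).imp (fun a => pos_sound hS (h142 h) a) (fun a => ((Bool.or_eq_true_iff.mp a).imp (fun a => pos_sound hS (h143 h) a) (fun a => ((Bool.or_eq_true_iff.mp a).imp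 (fun a => pos_sound hS (h144 h) a) (fun a => pos_sound hS (h146 h) a)))))))))))))))))))

def f (b : Bx) : Nat := l1 b

/-- the statement -/
def Q (x1 x2 : ℝ) : Prop := P1 x1 x2

theorem f_sound (b : Bx) (hb : f b = 0) (x1 x2 : ℝ) (hm : Mem S b x1 x2) : Q x1 x2 := by
  obtain ⟨E, h⟩ := pt_of_mem hm
  have h : In b E x1 x2 := h
  unfold f at hb
  have e := hb
  have z1 : l1 b = 0 := e
  exact (l1_sound h z1)

/-- the box -/
def b0 : Bx := ⟨232471924, 0, 232471926, 805306368, 0, 805306369⟩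

theorem chk_all {n : ℕ} {b : Bx} (h : chk f n b = true) (x1 x2 : ℝ) (hm : Mem S b x1 x2) : Q x1 x2 :=
  chk_sound (fun b hb x1 x2 hm => f_sound b hb x1 x2 hm) n b h x1 x2 hm


end Pool.Agent.Strip051.LB.ChB03V1_pp_022
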