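import Pool.Agent.Strip051.LB.ChB03V1_pp_022.Defs
import Pool.Agent.Strip051.LB.Slope
import Pool.Agent.Strip051.LB.Star
import Pool.Agent.Strip051.LB.Cf

/-! # LINE tight chart ChB03V1_pp_022: slopes -/

namespace Pool.Agent.Strip051.LB.ChB03V1_pp_022

open Pool.Agent.Strip051.LB Pool.Agent.Strip051.LB.Fn Pool.Agent.Strip051.LB.Fc Pool.Agent.StripNear

set_option maxRecDepth 100000
set_option linter.all false

noncomputable def v35 (x1 x2 : ℝ) : ℝ := v2 x1 x2 * v1 x1 x2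

noncomputable def v36 (x1 x2 : ℝ) : ℝ := v35 x1 x2 - v24 x1 x2

noncomputable def v40 (x1 x2 : ℝ) : ℝ := v36 x1 x2 * v39 x1 x2

noncomputable def v44 (x1 x2 : ℝ) : ℝ := v40 x1 x2 * v43 x1 x2

noncomputable def v48 (x1 x2 : ℝ) : ℝ := v47 x1 x2 - v5 x1 x2

noncomputable def v52 (x1 x2 : ℝ) : ℝ := (v51 x1 x2) ^ 2

noncomputable def v54 (x1 x2 : ℝ) : ℝ := -(v53 x1 x2)

noncomputable def v55 (x1 x2 : ℝ) : ℝ := (v18 x1 x2) ^ 2

noncomputable def v57 (x1 x2 : ℝ) : ℝ := -(v56 x1 x2)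

noncomputable def v58 (x1 x2 : ℝ) : ℝ := v22 x1 x2 - v55 x1 x2

noncomputable def v63 (x1 x2 : ℝ) : ℝ := (v62 x1 x2) ^ 2

noncomputable def v66 (x1 x2 : ℝ) : ℝ := v52 x1 x2 + v63 x1 x2

noncomputable def v68 (x1 x2 : ℝ) : ℝ := v66 x1 x2 - v5 x1 x2

noncomputable def v73 (x1 x2 : ℝ) : ℝ := v48 x1 x2 * v69 x1 x2

noncomputable def v74 (x1 x2 : ℝ) : ℝ := v25 x1 x2 + v73 x1 x2

noncomputable def v83 (x1 x2 : ℝ) : ℝ := v7 x1 x2 * v19 x1 x2

noncomputable def v85 (x1 x2 : ℝ) : ℝ := v18 x1 x2 * v0 x1 x2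

noncomputable def v86 (x1 x2 : ℝ) : ℝ := -(v0 x1 x2)

noncomputable def v87 (x1 x2 : ℝ) : ℝ := v83 x1 x2 - v85 x1 x2

noncomputable def v89 (x1 x2 : ℝ) : ℝ := v87 x1 x2 * v80 x1 x2

noncomputable def v91 (x1 x2 : ℝ) : ℝ := v89 x1 x2 - v9 x1 x2

noncomputable def v93 (x1 x2 : ℝ) : ℝ := v24 x1 x2 - v3 x1 x2

noncomputable def v108 (x1 x2 : ℝ) : ℝ := -(v61 x1 x2)

noncomputable def v111 (x1 x2 : ℝ) : ℝ := -(v110 x1 x2)

noncomputable def v116 (x1 x2 : ℝ) : ℝ := v103 x1 x2 * v112 x1 x2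

noncomputable def v121 (x1 x2 : ℝ) : ℝ := v19 x1 x2 - v3 x1 x2

noncomputable def v147 (x1 x2 : ℝ) : ℝ := v62 x1 x2 - v3 x1 x2

structure Cx (x1 x2 : ℝ) : Prop where
  hc : v7 x1 x2 ^ 2 + x1 ^ 2 = 1
  p23 : 0 < v23 x1 x2
  p59 : 0 < v59 x1 x2
  p71 : 0 < v71 x1 x2
  p72 : 0 < v72 x1 x2
  p42 : 0 < v42 x1 x2
  p109 : 0 < v109 x1 x2
  p32 : 0 < v32 x1 x2

variable {x1 x2 : ℝ}

theorem s3q (x1 x2 : ℝ) : v2 x1 x2 ^ 2 = 3 := by
  rw [v2]; exact s3sq

theorem s3ne (x1 x2 : ℝ) : v2 x1 x2 ≠ 0 := by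
  rw [v2]; positivity

theorem s1 (c : Cx x1 x2) : v1 x1 x2 = v18 x1 x2 + v27 x1 x2 * v49 x1 x2 := by
  simp only [v1, v5, v27, v49]
  (try push_cast)
  first | ring | grind

theorem s21 (c : Cx x1 x2) : v21 x1 x2 = v55 x1 x2 + v27 x1 x2 * v57 x1 x2 := by
  have a0 : (v1 x1 x2 + v18 x1 x2) * v1 x1 x2 = (v1 x1 x2 + v18 x1 x2) * (v18 x1 x2 + v27 x1 x2 * v49 x1 x2) := congrArg (fun z => (v1 x1 x2 + v18 x1 x2) * z) (s1 c)
  try simp only [v1, v5, v21, v27, v49, v55, v56, v57] at a0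
  simp only [v1, v5, v21, v27, v49, v55, v56, v57]
  (try push_cast at a0 ⊢)
  first | linear_combination a0 | ring | grind

theorem s23 (c : Cx x1 x2) : v23 x1 x2 = v58 x1 x2 + v27 x1 x2 * v56 x1 x2 := by
  have a1 := s21 c
  try simp only [v1, v22, v23, v27, v56, v57, v58] at a1
  simp only [v1, v22, v23, v27, v56, v57, v58]
  (try push_cast at a1 ⊢)
  first | linear_combination -a1 | ring | grind

theorem q24 (c : Cx x1 x2) : v58 x1 x2 = v19 x1 x2 ^ 2 := by
  have hc := c.hc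
  have h3 := s3q x1 x2
  simp only [v0, v3, v10, v11, v13, v14, v16, v17, v18, v19, v22, v55, v58] at hc ⊢
  push_cast at hc ⊢
  grind

theorem s24 (c : Cx x1 x2) : v24 x1 x2 = v19 x1 x2 + v27 x1 x2 * v61 x1 x2 := by
  have a0 := s23 c
  have e : 0 < Real.sqrt (v23 x1 x2) + v19 x1 x2 := by
    have e := c.p59
    simp only [v22, v23, v24, v59] at e ⊢
    push_cast at e ⊢
    linarith
  have b := sl_sqrt a0 (q24 c) (le_of_lt c.p23) e
  clear a0
  try simp only [v1, v22, v23, v24, v27, v56, v58, v59, v60, v61] at b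
  simp only [v1, v22, v23, v24, v27, v56, v58, v59, v60, v61]
  (try push_cast at b ⊢)
  first | linear_combination b | ring | grind

theorem s25 (c : Cx x1 x2) : v25 x1 x2 = v51 x1 x2 + v27 x1 x2 * v49 x1 x2 := by
  have a0 := s1 c
  try simp only [v1, v5, v25, v27, v49, v51] at a0
  simp only [v1, v5, v25, v27, v49, v51]
  (try push_cast at a0 ⊢)
  first | linear_combination a0 | ring | grind

theorem s26 (c : Cx x1 x2) : v26 x1 x2 = v62 x1 x2 + v27 x1 x2 * v61 x1 x2 := by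
  have a0 := s24 c
  try simp only [v0, v1, v26, v27, v62] at a0
  simp only [v0, v1, v26, v27, v62]
  (try push_cast at a0 ⊢)
  first | linear_combination a0 | ring | grind

theorem s35 (c : Cx x1 x2) : v35 x1 x2 = v94 x1 x2 + v27 x1 x2 * v95 x1 x2 := by
  have a1 : (v2 x1 x2) * v1 x1 x2 = (v2 x1 x2) * (v18 x1 x2 + v27 x1 x2 * v49 x1 x2) := congrArg (fun z => (v2 x1 x2) * z) (s1 c)
  try simp only [v1, v2, v5, v27, v35, v49, v94, v95] at a1
  simp only [v1, v2, v5, v27, v35, v49, v94, v95]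
  (try push_cast at a1 ⊢)
  first | linear_combination a1 | ring | grind

theorem s36 (c : Cx x1 x2) : v36 x1 x2 = v96 x1 x2 + v27 x1 x2 * v97 x1 x2 := by
  have a0 := s35 c
  have a1 := s24 c
  try simp only [v1, v2, v27, v36, v95, v96, v97] at a0
  try simp only [v1, v2, v27, v36, v95, v96, v97] at a1
  simp only [v1, v2, v27, v36, v95, v96, v97]
  (try push_cast at a0 a1 ⊢)
  first | linear_combination a0 - a1 | ring | grind

theorem s37 (c : Cx x1 x2) : v37 x1 x2 = v98 x1 x2 + v27 x1 x2 * v49 x1 x2 := by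
  have a0 := s1 c
  try simp only [v1, v5, v22, v27, v37, v49, v98] at a0
  simp only [v1, v5, v22, v27, v37, v49, v98]
  (try push_cast at a0 ⊢)
  first | linear_combination a0 | ring | grind

theorem s38 (c : Cx x1 x2) : v38 x1 x2 = v99 x1 x2 + v27 x1 x2 * v100 x1 x2 := by
  have a1 : (v2 x1 x2) * v24 x1 x2 = (v2 x1 x2) * (v19 x1 x2 + v27 x1 x2 * v61 x1 x2) := congrArg (fun z => (v2 x1 x2) * z) (s24 c)
  try simp only [v1, v2, v27, v38, v99, v100] at a1
  simp only [v1, v2, v27, v38, v99, v100]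
  (try push_cast at a1 ⊢)
  first | linear_combination a1 | ring | grind

theorem s39 (c : Cx x1 x2) : v39 x1 x2 = v101 x1 x2 + v27 x1 x2 * v102 x1 x2 := by
  have a0 := s37 c
  have a1 := s38 c
  try simp only [v1, v5, v22, v27, v37, v39, v49, v98, v101, v102] at a0
  try simp only [v1, v5, v22, v27, v37, v39, v49, v98, v101, v102] at a1
  simp only [v1, v5, v22, v27, v37, v39, v49, v98, v101, v102]
  (try push_cast at a0 a1 ⊢)
  first | linear_combination a0 - a1 | ring | grind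

theorem s40 (c : Cx x1 x2) : v40 x1 x2 = v103 x1 x2 + v27 x1 x2 * v106 x1 x2 := by
  have a0 : (v39 x1 x2) * v36 x1 x2 = (v39 x1 x2) * (v96 x1 x2 + v27 x1 x2 * v97 x1 x2) := congrArg (fun z => (v39 x1 x2) * z) (s36 c)
  have a1 : (v96 x1 x2) * v39 x1 x2 = (v96 x1 x2) * (v101 x1 x2 + v27 x1 x2 * v102 x1 x2) := congrArg (fun z => (v96 x1 x2) * z) (s39 c)
  try simp only [v1, v2, v5, v22, v27, v36, v37, v39, v40, v49, v95, v96, v97, v98, v101, v102, v103, v104, v105, v106] at a0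
  try simp only [v1, v2, v5, v22, v27, v36, v37, v39, v40, v49, v95, v96, v97, v98, v101, v102, v103, v104, v105, v106] at a1
  simp only [v1, v2, v5, v22, v27, v36, v37, v39, v40, v49, v95, v96, v97, v98, v101, v102, v103, v104, v105, v106]
  (try push_cast at a0 a1 ⊢)
  first | linear_combination a0 + a1 | ring | grind

theorem s41 (c : Cx x1 x2) : v41 x1 x2 = v107 x1 x2 + v27 x1 x2 * v108 x1 x2 := by
  have a1 := s24 c
  try simp only [v1, v2, v27, v41, v107, v108] at a1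
  simp only [v1, v2, v27, v41, v107, v108]
  (try push_cast at a1 ⊢)
  first | linear_combination -a1 | ring | grind

theorem s42 (c : Cx x1 x2) : v42 x1 x2 = v109 x1 x2 + v27 x1 x2 * v111 x1 x2 := by
  have a0 := s41 c
  try simp only [v1, v2, v27, v41, v42, v107, v108, v109, v110, v111] at a0
  simp only [v1, v2, v27, v41, v42, v107, v108, v109, v110, v111]
  (try push_cast at a0 ⊢)
  first | linear_combination (4 : ℝ) * a0 | ring | grind

theorem s43 (c : Cx x1 x2) : v43 x1 x2 = v112 x1 x2 + v27 x1 x2 * v114 x1 x2 := by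
  have a0 := s42 c
  have b := sl_inv a0 (c.p42).ne' (c.p109).ne'
  clear a0
  try simp only [v1, v2, v27, v41, v42, v43, v107, v109, v110, v111, v112, v113, v114] at b
  simp only [v1, v2, v27, v41, v42, v43, v107, v109, v110, v111, v112, v113, v114]
  (try push_cast at b ⊢)
  first | linear_combination b | ring | grind

theorem s44 (c : Cx x1 x2) : v44 x1 x2 = v116 x1 x2 + v27 x1 x2 * v119 x1 x2 := by
  have a0 : (v43 x1 x2) * v40 x1 x2 = (v43 x1 x2) * (v103 x1 x2 + v27 x1 x2 * v106 x1 x2) := congrArg (fun z => (v43 x1 x2) * z) (s40 c)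
  have a1 : (v103 x1 x2) * v43 x1 x2 = (v103 x1 x2) * (v112 x1 x2 + v27 x1 x2 * v114 x1 x2) := congrArg (fun z => (v103 x1 x2) * z) (s43 c)
  try simp only [v1, v27, v44, v106, v116, v117, v118, v119] at a0
  try simp only [v1, v27, v44, v106, v116, v117, v118, v119] at a1
  simp only [v1, v27, v44, v106, v116, v117, v118, v119]
  (try push_cast at a0 a1 ⊢)
  first | linear_combination a0 + a1 | ring | grind

theorem s45 (c : Cx x1 x2) : v45 x1 x2 = v52 x1 x2 + v27 x1 x2 * v54 x1 x2 := by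
  have a0 : (v25 x1 x2 + v51 x1 x2) * v25 x1 x2 = (v25 x1 x2 + v51 x1 x2) * (v51 x1 x2 + v27 x1 x2 * v49 x1 x2) := congrArg (fun z => (v25 x1 x2 + v51 x1 x2) * z) (s25 c)
  try simp only [v1, v5, v25, v27, v45, v49, v51, v52, v53, v54] at a0
  simp only [v1, v5, v25, v27, v45, v49, v51, v52, v53, v54]
  (try push_cast at a0 ⊢)
  first | linear_combination a0 | ring | grind

theorem s46 (c : Cx x1 x2) : v46 x1 x2 = v63 x1 x2 + v27 x1 x2 * v65 x1 x2 := by
  have a0 : (v26 x1 x2 + v62 x1 x2) * v26 x1 x2 = (v26 x1 x2 + v62 x1 x2) * (v62 x1 x2 + v27 x1 x2 * v61 x1 x2) := congrArg (fun z => (v26 x1 x2 + v62 x1 x2) * z) (s26 c)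
  try simp only [v0, v1, v26, v27, v46, v62, v63, v64, v65] at a0
  simp only [v0, v1, v26, v27, v46, v62, v63, v64, v65]
  (try push_cast at a0 ⊢)
  first | linear_combination a0 | ring | grind

theorem s47 (c : Cx x1 x2) : v47 x1 x2 = v66 x1 x2 + v27 x1 x2 * v67 x1 x2 := by
  have a0 := s45 c
  have a1 := s46 c
  try simp only [v1, v25, v27, v47, v51, v53, v54, v66, v67] at a0
  try simp only [v1, v25, v27, v47, v51, v53, v54, v66, v67] at a1
  simp only [v1, v25, v27, v47, v51, v53, v54, v66, v67]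
  (try push_cast at a0 a1 ⊢)
  first | linear_combination a0 + a1 | ring | grind

theorem s48 (c : Cx x1 x2) : v48 x1 x2 = v68 x1 x2 + v27 x1 x2 * v67 x1 x2 := by
  have a0 := s47 c
  try simp only [v1, v5, v25, v27, v47, v48, v51, v53, v66, v67, v68] at a0
  simp only [v1, v5, v25, v27, v47, v48, v51, v53, v66, v67, v68]
  (try push_cast at a0 ⊢)
  first | linear_combination a0 | ring | grind

theorem s77 (c : Cx x1 x2) : v77 x1 x2 = v83 x1 x2 + v27 x1 x2 * v84 x1 x2 := by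
  have a1 : (v7 x1 x2) * v24 x1 x2 = (v7 x1 x2) * (v19 x1 x2 + v27 x1 x2 * v61 x1 x2) := congrArg (fun z => (v7 x1 x2) * z) (s24 c)
  try simp only [v1, v27, v77, v83, v84] at a1
  simp only [v1, v27, v77, v83, v84]
  (try push_cast at a1 ⊢)
  first | linear_combination a1 | ring | grind

theorem s78 (c : Cx x1 x2) : v78 x1 x2 = v85 x1 x2 + v27 x1 x2 * v86 x1 x2 := by
  have a0 : (v0 x1 x2) * v1 x1 x2 = (v0 x1 x2) * (v18 x1 x2 + v27 x1 x2 * v49 x1 x2) := congrArg (fun z => (v0 x1 x2) * z) (s1 c)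
  try simp only [v0, v1, v5, v27, v49, v78, v85, v86] at a0
  simp only [v0, v1, v5, v27, v49, v78, v85, v86]
  (try push_cast at a0 ⊢)
  first | linear_combination a0 | ring | grind

theorem s79 (c : Cx x1 x2) : v79 x1 x2 = v87 x1 x2 + v27 x1 x2 * v88 x1 x2 := by
  have a0 := s77 c
  have a1 := s78 c
  try simp only [v0, v1, v27, v79, v86, v87, v88] at a0
  try simp only [v0, v1, v27, v79, v86, v87, v88] at a1
  simp only [v0, v1, v27, v79, v86, v87, v88]
  (try push_cast at a0 a1 ⊢)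
  first | linear_combination a0 - a1 | ring | grind

theorem s81 (c : Cx x1 x2) : v81 x1 x2 = v89 x1 x2 + v27 x1 x2 * v90 x1 x2 := by
  have a0 : (v80 x1 x2) * v79 x1 x2 = (v80 x1 x2) * (v87 x1 x2 + v27 x1 x2 * v88 x1 x2) := congrArg (fun z => (v80 x1 x2) * z) (s79 c)
  try simp only [v0, v1, v27, v79, v81, v87, v88, v89, v90] at a0
  simp only [v0, v1, v27, v79, v81, v87, v88, v89, v90]
  (try push_cast at a0 ⊢)
  first | linear_combination a0 | ring | grind

theorem s82 (c : Cx x1 x2) : v82 x1 x2 = v91 x1 x2 + v27 x1 x2 * v90 x1 x2 := by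
  have a0 := s81 c
  try simp only [v1, v9, v27, v82, v91] at a0
  simp only [v1, v9, v27, v82, v91]
  (try push_cast at a0 ⊢)
  first | linear_combination a0 | ring | grind

theorem s92 (c : Cx x1 x2) : v92 x1 x2 = v147 x1 x2 + v27 x1 x2 * v61 x1 x2 := by
  have a0 := s26 c
  try simp only [v0, v1, v2, v3, v26, v27, v62, v92, v147] at a0
  simp only [v0, v1, v2, v3, v26, v27, v62, v92, v147]
  (try push_cast at a0 ⊢)
  first | linear_combination a0 | ring | grind

theorem s93 (c : Cx x1 x2) : v93 x1 x2 = v121 x1 x2 + v27 x1 x2 * v61 x1 x2 := by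
  have a0 := s24 c
  try simp only [v1, v2, v3, v27, v93, v121] at a0
  simp only [v1, v2, v3, v27, v93, v121]
  (try push_cast at a0 ⊢)
  first | linear_combination a0 | ring | grind

theorem bD (c : Cx x1 x2) : v68 x1 x2 = 0 := by
  have hc := c.hc
  have h3 := s3q x1 x2
  simp only [v0, v3, v5, v10, v11, v13, v14, v16, v17, v18, v19, v51, v52, v62, v63, v66, v68] at hc ⊢
  push_cast at hc ⊢
  grind

theorem sD (c : Cx x1 x2) : v48 x1 x2 = v27 x1 x2 * v67 x1 x2 := by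
  have h := s48 c
  rw [bD c, zero_add] at h
  exact h

theorem s74 (c : Cx x1 x2) : v74 x1 x2 = v51 x1 x2 + v27 x1 x2 * v76 x1 x2 := by
  have hA := s25 c
  have hd := sD c
  have hK : v69 x1 x2 * v48 x1 x2 = v69 x1 x2 * (v27 x1 x2 * v67 x1 x2) := congrArg (fun z => v69 x1 x2 * z) hd
  try simp only [v1, v5, v25, v27, v47, v48, v49, v51, v53, v67, v73, v74, v75, v76] at hA
  try simp only [v1, v5, v25, v27, v47, v48, v49, v51, v53, v67, v73, v74, v75, v76] at hK
  simp only [v1, v5, v25, v27, v47, v48, v49, v51, v53, v67, v73, v74, v75, v76]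
  (try push_cast at hA hK ⊢)
  first | linear_combination (hA + hK) | grind

theorem bE (c : Cx x1 x2) : v91 x1 x2 = 0 := by
  have hc := c.hc
  have h3 := s3q x1 x2
  have g0 : v2 x1 x2 ≠ 0 := s3ne x1 x2
  simp only [v0, v3, v9, v10, v11, v13, v14, v16, v17, v18, v19, v80, v83, v85, v87, v89, v91] at hc ⊢
  push_cast at hc ⊢
  grind

theorem hE (c : Cx x1 x2) : v82 x1 x2 = v27 x1 x2 * v90 x1 x2 := by
  have h := s82 c
  rw [bE c, zero_add] at h
  exact h

theorem bS (c : Cx x1 x2) : v116 x1 x2 - v34 x1 x2 - v51 x1 x2 = 0 := by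
  have hc := c.hc
  have h3 := s3q x1 x2
  have g0 := (c.p32).ne'
  have g1 := (c.p109).ne'
  simp only [v0, v3, v5, v10, v11, v13, v14, v16, v17, v18, v19, v22, v28, v29, v30, v31, v32, v33, v34, v51, v94, v96, v98, v99, v101, v103, v107, v109, v112, v116] at hc g0 g1 ⊢
  push_cast at hc g0 g1 ⊢
  grind

theorem hS (c : Cx x1 x2) : v44 x1 x2 - v34 x1 x2 - v74 x1 x2 = v27 x1 x2 * v120 x1 x2 := by
  have a3 := s44 c
  have a2 := s74 c
  have b := bS c
  try simp only [v1, v5, v25, v27, v51, v74, v76, v119, v120] at a3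
  try simp only [v1, v5, v25, v27, v51, v74, v76, v119, v120] at a2
  try simp only [v1, v5, v25, v27, v51, v74, v76, v119, v120] at b
  try simp only [v1, v5, v25, v27, v51, v74, v76, v119, v120]
  (try push_cast at a3 a2 b ⊢)
  first | linear_combination a3 - a2 + b | grind

theorem bC (c : Cx x1 x2) : v0 x1 x2 * v116 x1 x2 - v121 x1 x2 * v34 x1 x2 = 0 := by
  have hc := c.hc
  have h3 := s3q x1 x2
  have g0 := (c.p32).ne'
  have g1 := (c.p109).ne'
  simp only [v0, v3, v5, v10, v11, v13, v14, v16, v17, v18, v19, v22, v28, v29, v30, v31, v32, v33, v34, v94, v96, v98, v99, v101, v103, v107, v109, v112, v116, v121] at hc g0 g1 ⊢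
  push_cast at hc g0 g1 ⊢
  grind

theorem hC (c : Cx x1 x2) : v0 x1 x2 * v44 x1 x2 - v93 x1 x2 * v34 x1 x2 = v27 x1 x2 * v124 x1 x2 := by
  have a2 : v0 x1 x2 * v44 x1 x2 = v0 x1 x2 * (v116 x1 x2 + v27 x1 x2 * v119 x1 x2) := congrArg (fun z => v0 x1 x2 * z) (s44 c)
  have a3 : v34 x1 x2 * v93 x1 x2 = v34 x1 x2 * (v121 x1 x2 + v27 x1 x2 * v61 x1 x2) := congrArg (fun z => v34 x1 x2 * z) (s93 c)
  have b := bC c
  try simp only [v0, v1, v2, v3, v27, v93, v119, v121, v122, v123, v124] at a2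
  try simp only [v0, v1, v2, v3, v27, v93, v119, v121, v122, v123, v124] at a3
  try simp only [v0, v1, v2, v3, v27, v93, v119, v121, v122, v123, v124] at b
  simp only [v0, v1, v2, v3, v27, v93, v119, v121, v122, v123, v124]
  (try push_cast at a2 a3 b ⊢)
  first | linear_combination a2 - a3 + b | grind

theorem hT (x1 x2 : ℝ) : v93 x1 x2 = v0 x1 x2 + v92 x1 x2 := by
  simp only [v0, v2, v3, v26, v92, v93]
  push_cast
  ring

theorem hG (c : Cx x1 x2) : v92 x1 x2 * (-v34 x1 x2) - v0 x1 x2 * (-v74 x1 x2) = v27 x1 x2 * v126 x1 x2 := by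
  have b := hC c
  have m0 : v0 x1 x2 * (v44 x1 x2 - v34 x1 x2 - v74 x1 x2) = v0 x1 x2 * (v27 x1 x2 * v120 x1 x2) := congrArg (fun z => v0 x1 x2 * z) (hS c)
  have m1 : v34 x1 x2 * v93 x1 x2 = v34 x1 x2 * (v0 x1 x2 + v92 x1 x2) := congrArg (fun z => v34 x1 x2 * z) (hT x1 x2)
  try simp only [v0, v1, v2, v3, v5, v25, v26, v27, v74, v76, v92, v93, v119, v120, v124, v125, v126] at b
  try simp only [v0, v1, v2, v3, v5, v25, v26, v27, v74, v76, v92, v93, v119, v120, v124, v125, v126] at m0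
  try simp only [v0, v1, v2, v3, v5, v25, v26, v27, v74, v76, v92, v93, v119, v120, v124, v125, v126] at m1
  try simp only [v0, v1, v2, v3, v5, v25, v26, v27, v74, v76, v92, v93, v119, v120, v124, v125, v126]
  (try push_cast at b m0 m1 ⊢)
  first | linear_combination b - m0 + m1 | grind

theorem core (c : Cx x1 x2) (hW : 0 ≤ v27 x1 x2) (hWQ : 0 ≤ v27 x1 x2 * v131 x1 x2) (h1 : 0 ≤ v0 x1 x2) (h2 : 0 ≤ v92 x1 x2) (h3 : v0 x1 x2 + v92 x1 x2 ≤ Pool.Agent.StripNear.h0) :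
    0 ≤ starn_v (v82 x1 x2) (v0 x1 x2) (v92 x1 x2) ((-v34 x1 x2)) ((-v74 x1 x2)) ((-v44 x1 x2)) := by
  have hD : (-v34 x1 x2) + (-v74 x1 x2) - (-v44 x1 x2) = v27 x1 x2 * v120 x1 x2 := by
    have b := hS c
    linear_combination b
  have k := starn_ge hW h1 h2 h3 (hE c) hD (hG c)
  refine le_trans hWQ (le_trans (le_of_eq ?_) k)
  rw [v131]

end Pool.Agent.Strip051.LB.ChB03V1_pp_022
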